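import Mathlib
import Pool.Agent.H47.L.R_seed8.Helper346.Bra.SE
import Pool.Agent.H47.L.R_seed8.H552R3.SymBr

/-! Moves for classes of symbol algebras. -/

set_option autoImplicit false
set_option linter.all false

open scoped TensorProduct

noncomputable section

namespace Pool.Agent.H552R3.SymBr

open Pool.Agent.Helper346.Bra Pool.Agent.Helper18.Br

universe u

variable {K : Type u} [Field K] {n : ℕ} {ζ : K}

theorem gyx (a b : K) : gy K n ζ a b * gx K n ζ a b = ζ • (gx K n ζ a b * gy K n ζ a b) := by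
  rw [gy_gx, Algebra.smul_def]

/-- `{a,b} = {b,a⁻¹}` -/
theorem symCl_swap (hn : 0 < n) (hζ : IsPrimitiveRoot ζ n) (a b : Kˣ) :
    symCl hn hζ a b = symCl hn hζ b a⁻¹ := by
  have hx : gx K n ζ (a : K) (b : K) ^ n = algebraMap K _ (a : K) := gx_pow
  have hy : gy K n ζ (a : K) (b : K) ^ n = algebraMap K _ (b : K) := gy_pow
  have hyx := gyx (n := n) (ζ := ζ) (a : K) (b : K)
  set x := gx K n ζ (a : K) (b : K)
  set y := gy K n ζ (a : K) (b : K)
  have ha : (a : K) ≠ 0 := a.ne_zero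
  refine symCl_eq_of_gens hn hζ a b b a⁻¹ y ((a : K)⁻¹ • x ^ (n - 1)) hy ?_ ?_
  · rw [smul_pow, ← pow_mul, mul_comm (n - 1) n, pow_mul, hx, ← map_pow, Algebra.smul_def, ← map_mul]
    congr 1
    obtain ⟨m, rfl⟩ : ∃ m, n = m + 1 := ⟨n - 1, by omega⟩
    rw [Nat.add_sub_cancel, pow_succ, mul_comm ((a : K)⁻¹ ^ m), mul_assoc, ← mul_pow,
      inv_mul_cancel₀ ha, one_pow, mul_one, Units.val_inv_eq_inv_val]
  · rw [← Algebra.smul_def, mul_smul_comm, mv_yx_pow hyx, smul_mul_assoc, smul_smul, smul_smul]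
    congr 1
    have : ζ * ζ ^ (n - 1) = 1 := by
      rw [← pow_succ', Nat.sub_add_cancel hn]; exact hζ.pow_eq_one
    calc (a : K)⁻¹ = (a : K)⁻¹ * (ζ * ζ ^ (n - 1)) := by rw [this, mul_one]
      _ = _ := by ring

/-- `{a, b} = {a, b c^n}` -/
theorem symCl_scale (hn : 0 < n) (hζ : IsPrimitiveRoot ζ n) (a b c : Kˣ) :
    symCl hn hζ a b = symCl hn hζ a (b * c ^ n) := by
  have hx : gx K n ζ (a : K) (b : K) ^ n = algebraMap K _ (a : K) := gx_pow
  have hy : gy K n ζ (a : K) (b : K) ^ n = algebraMap K _ (b : K) := gy_pow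
  have hyx := gyx (n := n) (ζ := ζ) (a : K) (b : K)
  set x := gx K n ζ (a : K) (b : K)
  set y := gy K n ζ (a : K) (b : K)
  refine symCl_eq_of_gens hn hζ a b a (b * c ^ n) x ((c : K) • y) hx ?_ ?_
  · rw [smul_pow, hy, Algebra.smul_def, ← map_mul, Units.val_mul, Units.val_pow_eq_pow_val, mul_comm]
  · rw [← Algebra.smul_def, smul_mul_assoc, hyx, mul_smul_comm, smul_comm]

/-- `{a (1 - b), b} = {a, b}` -/
theorem symCl_norm (hn : 0 < n) (hζ : IsPrimitiveRoot ζ n) (a b c : Kˣ) (hc : (c : K) = 1 - b) :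
    symCl hn hζ a b = symCl hn hζ (a * c) b := by
  have hx : gx K n ζ (a : K) (b : K) ^ n = algebraMap K _ (a : K) := gx_pow
  have hy : gy K n ζ (a : K) (b : K) ^ n = algebraMap K _ (b : K) := gy_pow
  have hyx := gyx (n := n) (ζ := ζ) (a : K) (b : K)
  set x := gx K n ζ (a : K) (b : K)
  set y := gy K n ζ (a : K) (b : K)
  have hζ0 : ζ ≠ 0 := hζ.ne_zero hn.ne'
  refine symCl_eq_of_gens hn hζ a b (a * c) b ((1 - y) * x) y ?_ hy ?_
  · rw [mv_norm_pow hζ0 hyx, mv_prod hn (hζ.inv), map_sub, map_one, map_pow, Polynomial.aeval_X,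
      hy, hx, Units.val_mul, hc, ← map_one (algebraMap K (Symb K n ζ (a : K) (b : K))), ← map_sub, ← map_mul, mul_comm]
  · rw [← Algebra.smul_def]
    calc y * ((1 - y) * x) = (1 - y) * (y * x) := by noncomm_ring
      _ = ζ • ((1 - y) * x * y) := by rw [hyx, mul_smul_comm, mul_assoc]

theorem zeta_sum (hn : 0 < n) (hζ : IsPrimitiveRoot ζ n) :
    ζ ^ (∑ i ∈ Finset.range n, i) = 1 ∨ ζ ^ (∑ i ∈ Finset.range n, i) = -1 := by
  have h2 : (∑ i ∈ Finset.range n, i) * 2 = n * (n - 1) := Finset.sum_range_id_mul_two n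
  have h : (ζ ^ (∑ i ∈ Finset.range n, i)) ^ 2 = 1 := by
    rw [← pow_mul, h2, pow_mul, hζ.pow_eq_one, one_pow]
  generalize ζ ^ (∑ i ∈ Finset.range n, i) = z at h
  have h3 : (z - 1) * (z + 1) = 0 := by linear_combination h
  rcases mul_eq_zero.1 h3 with h4 | h4
  · exact Or.inl (sub_eq_zero.1 h4)
  · exact Or.inr (eq_neg_of_add_eq_zero_left h4)

/-- `{a, b} = {a, ε a b}` with a sign `ε` depending only on `n`. -/
theorem symCl_self (hn : 0 < n) (hζ : IsPrimitiveRoot ζ n) :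
    ∃ ε : Kˣ, (ε = 1 ∨ ε = -1) ∧ ∀ a b : Kˣ, symCl hn hζ a b = symCl hn hζ a (ε * (a * b)) := by
  obtain ⟨ε, hε, hε'⟩ : ∃ ε : Kˣ, (ε = 1 ∨ ε = -1) ∧ (ε : K) = ζ ^ (∑ i ∈ Finset.range n, i) := by
    rcases zeta_sum hn hζ with h | h
    · exact ⟨1, Or.inl rfl, by rw [h]; rfl⟩
    · exact ⟨-1, Or.inr rfl, by rw [h]; rfl⟩
  refine ⟨ε, hε, fun a b => ?_⟩
  have hx : gx K n ζ (a : K) (b : K) ^ n = algebraMap K _ (a : K) := gx_pow
  have hy : gy K n ζ (a : K) (b : K) ^ n = algebraMap K _ (b : K) := gy_pow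
  have hyx := gyx (n := n) (ζ := ζ) (a : K) (b : K)
  set x := gx K n ζ (a : K) (b : K)
  set y := gy K n ζ (a : K) (b : K)
  refine symCl_eq_of_gens hn hζ a b a (ε * (a * b)) x (x * y) hx ?_ ?_
  · rw [mv_xy_pow hyx, hx, hy, ← hε', Algebra.smul_def, Units.val_mul, Units.val_mul, map_mul, map_mul]
  · rw [← Algebra.smul_def, mul_assoc, hyx, mul_smul_comm]

end Pool.Agent.H552R3.SymBr
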