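import Mathlib
import Pool.Agent.H47.L.R_seed8.Helper346.Bra.SE
import Pool.Agent.H47.L.R_seed8.H552R3.SymMoves

/-! Bilinearity of the symbol. -/

set_option autoImplicit false
set_option linter.all false

open scoped TensorProduct

noncomputable section

namespace Pool.Agent.H552R3.SymBr

open Pool.Agent.Helper346.Bra Pool.Agent.Helper18.Br

universe u

variable {K : Type u} [Field K] {n : ℕ} {ζ : K}

theorem adjoin_gens (hn : 0 < n) (hζ : IsPrimitiveRoot ζ n) (a b : K) (s : Symb K n ζ a b) :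
    s ∈ Algebra.adjoin K {gx K n ζ a b, gy K n ζ a b} := by
  obtain ⟨e, he⟩ := symb_basis n hn ζ a b hζ.pow_eq_one
  rw [← e.sum_repr s]
  refine Subalgebra.sum_mem _ (fun ij _ => Subalgebra.smul_mem _ ?_ _)
  rw [he]
  exact Subalgebra.mul_mem _ (Subalgebra.pow_mem _ (Algebra.subset_adjoin (by simp)) _)
    (Subalgebra.pow_mem _ (Algebra.subset_adjoin (by simp)) _)

/-- two algebra maps from symbol algebras commute if their values at the generators do -/
theorem commute_of_gens (hn : 0 < n) (hζ : IsPrimitiveRoot ζ n) {a b a' b' : K} {C : Type*} [Ring C] [Algebra K C]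
    (f : Symb K n ζ a b →ₐ[K] C) (g : Symb K n ζ a' b' →ₐ[K] C)
    (h1 : Commute (f (gx K n ζ a b)) (g (gx K n ζ a' b')))
    (h2 : Commute (f (gx K n ζ a b)) (g (gy K n ζ a' b')))
    (h3 : Commute (f (gy K n ζ a b)) (g (gx K n ζ a' b')))
    (h4 : Commute (f (gy K n ζ a b)) (g (gy K n ζ a' b'))) :
    ∀ s t, Commute (f s) (g t) := by
  obtain ⟨e, he⟩ := symb_basis n hn ζ a b hζ.pow_eq_one
  obtain ⟨e', he'⟩ := symb_basis n hn ζ a' b' hζ.pow_eq_one
  intro s t
  rw [← e.sum_repr s, ← e'.sum_repr t, map_sum, map_sum]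
  refine Commute.sum_left _ _ _ (fun i _ => Commute.sum_right _ _ _ (fun j _ => ?_))
  rw [map_smul, map_smul]
  refine Commute.smul_left (Commute.smul_right ?_ _) _
  rw [he, he', map_mul, map_mul, map_pow, map_pow, map_pow, map_pow]
  exact ((h1.pow_pow _ _).mul_right (h2.pow_pow _ _)).mul_left ((h3.pow_pow _ _).mul_right (h4.pow_pow _ _))

/-- the algebra map `(a, bc) ⊗ (1, c) → (a, b) ⊗ (a, c)` -/
theorem exists_hom_mul (hn : 0 < n) (hζ : IsPrimitiveRoot ζ n) (a b c : Kˣ) :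
    Nonempty ((Symb K n ζ (a : K) ((b * c : Kˣ) : K) ⊗[K] Symb K n ζ ((1 : Kˣ) : K) (c : K)) →ₐ[K]
      (Symb K n ζ (a : K) (b : K) ⊗[K] Symb K n ζ (a : K) (c : K))) := by
  have hx : gx K n ζ (a : K) (b : K) ^ n = algebraMap K _ (a : K) := gx_pow
  have hy : gy K n ζ (a : K) (b : K) ^ n = algebraMap K _ (b : K) := gy_pow
  have hyx := gyx (n := n) (ζ := ζ) (a : K) (b : K)
  have hx' : gx K n ζ (a : K) (c : K) ^ n = algebraMap K _ (a : K) := gx_pow
  have hy' : gy K n ζ (a : K) (c : K) ^ n = algebraMap K _ (c : K) := gy_pow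
  have hyx' := gyx (n := n) (ζ := ζ) (a : K) (c : K)
  set x := gx K n ζ (a : K) (b : K)
  set y := gy K n ζ (a : K) (b : K)
  set x' := gx K n ζ (a : K) (c : K)
  set y' := gy K n ζ (a : K) (c : K)
  have ha : (a : K) ≠ 0 := a.ne_zero
  have hζ1 : ζ * ζ ^ (n - 1) = 1 := by
    rw [← pow_succ', Nat.sub_add_cancel hn]; exact hζ.pow_eq_one
  -- the inverse of `x`
  obtain ⟨xi, hxi, hxi', hxin, hyxi⟩ : ∃ xi : Symb K n ζ (a : K) (b : K), x * xi = 1 ∧ xi * x = 1 ∧
      xi ^ n = algebraMap K _ ((a : K)⁻¹) ∧ ζ • (y * xi) = xi * y := by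
    have e1 : x * ((a : K)⁻¹ • x ^ (n - 1)) = 1 := by
      rw [mul_smul_comm, ← pow_succ', Nat.sub_add_cancel hn, hx, Algebra.smul_def, ← map_mul,
        inv_mul_cancel₀ ha, map_one]
    have e2 : ((a : K)⁻¹ • x ^ (n - 1)) * x = 1 := by
      rw [smul_mul_assoc, ← pow_succ, Nat.sub_add_cancel hn, hx, Algebra.smul_def, ← map_mul,
        inv_mul_cancel₀ ha, map_one]
    refine ⟨(a : K)⁻¹ • x ^ (n - 1), e1, e2, ?_, ?_⟩
    · have hc : Commute x ((a : K)⁻¹ • x ^ (n - 1)) := by rw [Commute, SemiconjBy, e1, e2]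
      have h2 : x ^ n * ((a : K)⁻¹ • x ^ (n - 1)) ^ n = 1 := by
        rw [← hc.mul_pow, e1, one_pow]
      calc ((a : K)⁻¹ • x ^ (n - 1)) ^ n
          = algebraMap K _ ((a : K)⁻¹) * (x ^ n * ((a : K)⁻¹ • x ^ (n - 1)) ^ n) := by
            rw [hx, ← mul_assoc, ← map_mul, inv_mul_cancel₀ ha, map_one, one_mul]
        _ = _ := by rw [h2, mul_one]
    · rw [mul_smul_comm, mv_yx_pow hyx, smul_mul_assoc, smul_smul, smul_smul]
      congr 1
      calc ζ * (a : K)⁻¹ * ζ ^ (n - 1) = (a : K)⁻¹ * (ζ * ζ ^ (n - 1)) := by ring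
        _ = _ := by rw [hζ1, mul_one]
  let C := Symb K n ζ (a : K) (b : K) ⊗[K] Symb K n ζ (a : K) (c : K)
  have hal : ∀ (d : K), algebraMap K C d = (algebraMap K (Symb K n ζ (a : K) (b : K)) d) ⊗ₜ[K] 1 := by
    intro d
    rw [Algebra.TensorProduct.algebraMap_apply]
  have hal' : ∀ (d e : K), (algebraMap K (Symb K n ζ (a : K) (b : K)) d) ⊗ₜ[K]
      (algebraMap K (Symb K n ζ (a : K) (c : K)) e) = algebraMap K C (d * e) := by
    intro d e
    rw [hal, map_mul, Algebra.algebraMap_eq_smul_one (R := K) (A := Symb K n ζ (a : K) (c : K)),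
      TensorProduct.tmul_smul, TensorProduct.smul_tmul', Algebra.smul_def, ← map_mul, ← map_mul, mul_comm]
  let U : C := x ⊗ₜ[K] 1
  let V : C := y ⊗ₜ[K] y'
  let W : C := xi ⊗ₜ[K] x'
  let T : C := (1 : Symb K n ζ (a : K) (b : K)) ⊗ₜ[K] y'
  have hU : U ^ n = algebraMap K C (a : K) := by
    simp only [U]
    rw [Algebra.TensorProduct.tmul_pow, hx, one_pow, hal]
  have hV : V ^ n = algebraMap K C ((b * c : Kˣ) : K) := by
    simp only [V]
    rw [Algebra.TensorProduct.tmul_pow, hy, hy', hal', Units.val_mul]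
  have hW : W ^ n = algebraMap K C ((1 : Kˣ) : K) := by
    simp only [W]
    rw [Algebra.TensorProduct.tmul_pow, hxin, hx', hal', inv_mul_cancel₀ ha, Units.val_one]
  have hT : T ^ n = algebraMap K C (c : K) := by
    simp only [T]
    rw [Algebra.TensorProduct.tmul_pow, one_pow, hy']
    have := hal' 1 (c : K)
    rw [map_one, one_mul] at this
    exact this
  have hVU : V * U = algebraMap K C ζ * (U * V) := by
    rw [← Algebra.smul_def]
    simp only [U, V]
    rw [Algebra.TensorProduct.tmul_mul_tmul, Algebra.TensorProduct.tmul_mul_tmul, hyx, one_mul, mul_one,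
      TensorProduct.smul_tmul']
  have hTW : T * W = algebraMap K C ζ * (W * T) := by
    rw [← Algebra.smul_def]
    simp only [T, W]
    rw [Algebra.TensorProduct.tmul_mul_tmul, Algebra.TensorProduct.tmul_mul_tmul, hyx', one_mul, mul_one,
      TensorProduct.tmul_smul]
  have cUW : Commute U W := by
    rw [Commute, SemiconjBy]
    simp only [U, W]
    rw [Algebra.TensorProduct.tmul_mul_tmul, Algebra.TensorProduct.tmul_mul_tmul, one_mul, mul_one, hxi, hxi']
  have cUT : Commute U T := by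
    rw [Commute, SemiconjBy]
    simp only [U, T]
    rw [Algebra.TensorProduct.tmul_mul_tmul, Algebra.TensorProduct.tmul_mul_tmul, one_mul, mul_one, one_mul, mul_one]
  have cVT : Commute V T := by
    rw [Commute, SemiconjBy]
    simp only [V, T]
    rw [Algebra.TensorProduct.tmul_mul_tmul, Algebra.TensorProduct.tmul_mul_tmul, one_mul, mul_one]
  have cVW : Commute V W := by
    rw [Commute, SemiconjBy]
    simp only [V, W]
    rw [Algebra.TensorProduct.tmul_mul_tmul, Algebra.TensorProduct.tmul_mul_tmul, hyx', ← hyxi,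
      TensorProduct.tmul_smul, TensorProduct.smul_tmul']
  let f : Symb K n ζ (a : K) ((b * c : Kˣ) : K) →ₐ[K] C := symLift U V hU hV hVU
  let g : Symb K n ζ ((1 : Kˣ) : K) (c : K) →ₐ[K] C := symLift W T hW hT hTW
  have hfx : f (gx K n ζ (a : K) ((b * c : Kˣ) : K)) = U := symLift_x _ _ _ _ _
  have hfy : f (gy K n ζ (a : K) ((b * c : Kˣ) : K)) = V := symLift_y _ _ _ _ _
  have hgx : g (gx K n ζ ((1 : Kˣ) : K) (c : K)) = W := symLift_x _ _ _ _ _
  have hgy : g (gy K n ζ ((1 : Kˣ) : K) (c : K)) = T := symLift_y _ _ _ _ _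
  have hfg : ∀ s t, Commute (f s) (g t) :=
    commute_of_gens hn hζ f g (by rw [hfx, hgx]; exact cUW) (by rw [hfx, hgy]; exact cUT)
      (by rw [hfy, hgx]; exact cVW) (by rw [hfy, hgy]; exact cVT)
  exact ⟨Algebra.TensorProduct.lift f g hfg⟩

/-- `{a, bc} {1, c} = {a, b} {a, c}` -/
theorem symCl_mul_aux (hn : 0 < n) (hζ : IsPrimitiveRoot ζ n) (a b c : Kˣ) :
    symCl hn hζ a (b * c) * symCl hn hζ 1 c = symCl hn hζ a b * symCl hn hζ a c := by
  have h1 := symb_csa n hn ζ (a : K) (b : K) hζ (n_ne_zero hn hζ) a.ne_zero b.ne_zero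
  have h2 := symb_csa n hn ζ (a : K) (c : K) hζ (n_ne_zero hn hζ) a.ne_zero c.ne_zero
  have h3 := symb_csa n hn ζ (a : K) ((b * c : Kˣ) : K) hζ (n_ne_zero hn hζ) a.ne_zero (b * c).ne_zero
  have h4 := symb_csa n hn ζ ((1 : Kˣ) : K) (c : K) hζ (n_ne_zero hn hζ) (1 : Kˣ).ne_zero c.ne_zero
  haveI i1 : Algebra.IsCentral K (Symb K n ζ (a : K) (b : K)) := h1.1
  haveI i2 : IsSimpleRing (Symb K n ζ (a : K) (b : K)) := h1.2.1
  haveI i3 : FiniteDimensional K (Symb K n ζ (a : K) (b : K)) := h1.2.2.1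
  haveI i4 : Algebra.IsCentral K (Symb K n ζ (a : K) (c : K)) := h2.1
  haveI i5 : IsSimpleRing (Symb K n ζ (a : K) (c : K)) := h2.2.1
  haveI i6 : FiniteDimensional K (Symb K n ζ (a : K) (c : K)) := h2.2.2.1
  haveI i7 : Algebra.IsCentral K (Symb K n ζ (a : K) ((b * c : Kˣ) : K)) := h3.1
  haveI i8 : IsSimpleRing (Symb K n ζ (a : K) ((b * c : Kˣ) : K)) := h3.2.1
  haveI i9 : FiniteDimensional K (Symb K n ζ (a : K) ((b * c : Kˣ) : K)) := h3.2.2.1
  haveI i10 : Algebra.IsCentral K (Symb K n ζ ((1 : Kˣ) : K) (c : K)) := h4.1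
  haveI i11 : IsSimpleRing (Symb K n ζ ((1 : Kˣ) : K) (c : K)) := h4.2.1
  haveI i12 : FiniteDimensional K (Symb K n ζ ((1 : Kˣ) : K) (c : K)) := h4.2.2.1
  obtain ⟨φ⟩ := exists_hom_mul hn hζ a b c
  haveI i13 : IsSimpleRing (Symb K n ζ (a : K) ((b * c : Kˣ) : K) ⊗[K] Symb K n ζ ((1 : Kˣ) : K) (c : K)) :=
    isSimple_tensor
  haveI i14 : IsSimpleRing (Symb K n ζ (a : K) (b : K) ⊗[K] Symb K n ζ (a : K) (c : K)) := isSimple_tensor
  haveI i15 : Algebra.IsCentral K (Symb K n ζ (a : K) (b : K) ⊗[K] Symb K n ζ (a : K) (c : K)) := isCentral_tensor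
  obtain ⟨e⟩ := equiv_of_hom φ (by
    rw [Module.finrank_tensorProduct, Module.finrank_tensorProduct, h1.2.2.2, h2.2.2.2, h3.2.2.2, h4.2.2.2])
  have e1 : brauerClass K (Symb K n ζ (a : K) ((b * c : Kˣ) : K)) * brauerClass K (Symb K n ζ ((1 : Kˣ) : K) (c : K)) =
      brauerClass K (Symb K n ζ (a : K) (b : K) ⊗[K] Symb K n ζ (a : K) (c : K)) :=
    brauerClass_mul_eq (BrEq.of_equiv e)
  have e2 : brauerClass K (Symb K n ζ (a : K) (b : K)) * brauerClass K (Symb K n ζ (a : K) (c : K)) =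
      brauerClass K (Symb K n ζ (a : K) (b : K) ⊗[K] Symb K n ζ (a : K) (c : K)) :=
    brauerClass_mul_eq (BrEq.of_equiv AlgEquiv.refl)
  exact e1.trans e2.symm

theorem symCl_one_one (hn : 0 < n) (hζ : IsPrimitiveRoot ζ n) : symCl hn hζ 1 1 = 1 := by
  haveI : NeZero n := ⟨hn.ne'⟩
  have h1 := symb_csa n hn ζ ((1 : Kˣ) : K) ((1 : Kˣ) : K) hζ (n_ne_zero hn hζ) (1 : Kˣ).ne_zero (1 : Kˣ).ne_zero
  haveI i1 : Algebra.IsCentral K (Symb K n ζ ((1 : Kˣ) : K) ((1 : Kˣ) : K)) := h1.1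
  haveI i2 : IsSimpleRing (Symb K n ζ ((1 : Kˣ) : K) ((1 : Kˣ) : K)) := h1.2.1
  haveI i3 : FiniteDimensional K (Symb K n ζ ((1 : Kˣ) : K) ((1 : Kˣ) : K)) := h1.2.2.1
  let V := ZMod n → K
  let X : Module.End K V :=
    { toFun := fun f j => ζ ^ j.val * f j
      map_add' := fun f g => funext fun j => mul_add _ _ _
      map_smul' := fun c f => funext fun j => mul_left_comm _ _ _ }
  let Y : Module.End K V :=
    { toFun := fun f j => f (j + 1)
      map_add' := fun f g => rfl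
      map_smul' := fun c f => rfl }
  have hXk : ∀ (k : ℕ) (f : V) (j : ZMod n), (X ^ k) f j = (ζ ^ j.val) ^ k * f j := by
    intro k
    induction k with
    | zero => intro f j; simp
    | succ k ih =>
      intro f j
      rw [pow_succ, Module.End.mul_apply, ih]
      change _ * (ζ ^ j.val * f j) = _
      ring
  have hYk : ∀ (k : ℕ) (f : V) (j : ZMod n), (Y ^ k) f j = f (j + k) := by
    intro k
    induction k with
    | zero => intro f j; simp
    | succ k ih =>
      intro f j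
      rw [pow_succ, Module.End.mul_apply, ih]
      change f (j + k + 1) = _
      rw [Nat.cast_succ, add_assoc]
  have hX : X ^ n = algebraMap K (Module.End K V) ((1 : Kˣ) : K) := by
    refine LinearMap.ext fun f => funext fun j => ?_
    rw [hXk, Units.val_one, map_one, Module.End.one_apply, ← pow_mul, mul_comm j.val n, pow_mul, hζ.pow_eq_one,
      one_pow, one_mul]
  have hY : Y ^ n = algebraMap K (Module.End K V) ((1 : Kˣ) : K) := by
    refine LinearMap.ext fun f => funext fun j => ?_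
    rw [hYk, Units.val_one, map_one, Module.End.one_apply]
    simp
  have hz : ∀ j : ZMod n, ζ ^ (j + 1).val = ζ * ζ ^ j.val := by
    intro j
    have h2 : ((j.val + 1 : ℕ) : ZMod n) = j + 1 := by
      rw [Nat.cast_add, ZMod.natCast_zmod_val, Nat.cast_one]
    rw [← h2, ZMod.val_natCast, ← pow_succ']
    exact (pow_eq_pow_mod (j.val + 1) hζ.pow_eq_one).symm
  have hYX : Y * X = algebraMap K (Module.End K V) ζ * (X * Y) := by
    refine LinearMap.ext fun f => funext fun j => ?_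
    rw [Module.End.mul_apply, Module.End.mul_apply, Module.End.mul_apply, Module.algebraMap_end_apply]
    change ζ ^ (j + 1).val * f (j + 1) = ζ * (ζ ^ j.val * f (j + 1))
    rw [hz, mul_assoc]
  have hV : Module.finrank K V = n := by
    rw [Module.finrank_fintype_fun_eq_card, ZMod.card]
  haveI : Nonempty (ZMod n) := ⟨0⟩
  haveI : Nontrivial (Module.End K V) := by
    apply Module.nontrivial_of_finrank_pos (R := K)
    rw [Module.finrank_linearMap, hV]
    positivity
  obtain ⟨e⟩ := equiv_of_hom (symLift X Y hX hY hYX) (by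
    rw [h1.2.2.2, Module.finrank_linearMap, hV, sq])
  have b := Module.finBasisOfFinrankEq K V hV
  exact brauerClass_eq_one_iff.2 (BrEq.of_matrix hn.ne' (e.trans (algEquivMatrix b)))

end Pool.Agent.H552R3.SymBr
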