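import Mathlib
import Pool.Agent.H47.L.R_seed8.H552R3.SymMul

/-! The symbol as a bimultiplicative map and the dimension-raising step. -/

set_option autoImplicit false
set_option linter.all false

open scoped TensorProduct

noncomputable section

namespace Pool.Agent.H552R3.SymBr

open Pool.Agent.Helper346.Bra Pool.Agent.Helper18.Br

universe u

variable {K : Type u} [Field K] {n : ℕ} {ζ : K}

theorem symCl_one_left (hn : 0 < n) (hζ : IsPrimitiveRoot ζ n) (c : Kˣ) : symCl hn hζ 1 c = 1 := by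
  have h := symCl_mul_aux hn hζ 1 1 c
  rw [one_mul, symCl_one_one, one_mul] at h
  exact mul_eq_left.1 h

theorem symCl_mul_right (hn : 0 < n) (hζ : IsPrimitiveRoot ζ n) (a b c : Kˣ) :
    symCl hn hζ a (b * c) = symCl hn hζ a b * symCl hn hζ a c := by
  rw [← symCl_mul_aux, symCl_one_left, mul_one]

theorem symCl_one_right (hn : 0 < n) (hζ : IsPrimitiveRoot ζ n) (a : Kˣ) : symCl hn hζ a 1 = 1 := by
  have h := symCl_mul_right hn hζ a 1 1
  rw [one_mul] at h
  exact (mul_eq_left.1 h.symm)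

/-- the symbol as a homomorphism in the second variable -/
def symR (hn : 0 < n) (hζ : IsPrimitiveRoot ζ n) (a : Kˣ) : Kˣ →* BrauerGroup.{u, u} K where
  toFun := symCl hn hζ a
  map_one' := symCl_one_right hn hζ a
  map_mul' := symCl_mul_right hn hζ a

theorem symCl_inv_right (hn : 0 < n) (hζ : IsPrimitiveRoot ζ n) (a b : Kˣ) :
    symCl hn hζ a b⁻¹ = (symCl hn hζ a b)⁻¹ := map_inv (symR hn hζ a) b

theorem symCl_anti (hn : 0 < n) (hζ : IsPrimitiveRoot ζ n) (a b : Kˣ) :
    symCl hn hζ a b = (symCl hn hζ b a)⁻¹ := by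
  rw [symCl_swap, symCl_inv_right]

theorem symCl_mul_left (hn : 0 < n) (hζ : IsPrimitiveRoot ζ n) (a b c : Kˣ) :
    symCl hn hζ (a * b) c = symCl hn hζ a c * symCl hn hζ b c := by
  rw [symCl_anti hn hζ (a * b) c, symCl_mul_right, mul_inv, ← symCl_anti, ← symCl_anti]

/-- the symbol as a homomorphism in the first variable -/
def symL (hn : 0 < n) (hζ : IsPrimitiveRoot ζ n) (b : Kˣ) : Kˣ →* BrauerGroup.{u, u} K where
  toFun := fun a => symCl hn hζ a b
  map_one' := symCl_one_left hn hζ b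
  map_mul' := fun a a' => symCl_mul_left hn hζ a a' b

/-- `{a,a}` is a symbol with a sign. -/
theorem symCl_diag (hn : 0 < n) (hζ : IsPrimitiveRoot ζ n) (a : Kˣ) :
    symCl hn hζ a a = 1 ∨ symCl hn hζ a a = symCl hn hζ a (-1) := by
  obtain ⟨ε, hε, h⟩ := symCl_self hn hζ
  have h1 := h a 1
  rw [symCl_one_right, mul_one, symCl_mul_right] at h1
  rcases hε with rfl | rfl
  · left
    rw [symCl_one_right, one_mul] at h1
    exact h1.symm
  · right
    have h2 : symCl hn hζ a (-1) * symCl hn hζ a (-1) = 1 := by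
      rw [← symCl_mul_right, neg_mul_neg, one_mul, symCl_one_right]
    have h3 := eq_inv_of_mul_eq_one_left h2
    rw [eq_comm, mul_comm] at h1
    rw [eq_inv_of_mul_eq_one_left h1]
    exact h3.symm

/-- Steinberg relation -/
theorem symCl_steinberg (hn : 0 < n) (hζ : IsPrimitiveRoot ζ n) (b c : Kˣ) (hc : (c : K) = 1 - b) :
    symCl hn hζ c b = 1 := by
  have h := symCl_norm hn hζ 1 b c hc
  rw [one_mul, symCl_one_left] at h
  exact h.symm

/-- `{e B, A f⁻¹} {A, B} = {e, A} {f, B} {e, f}⁻¹`. -/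
theorem symCl_pair0 (hn : 0 < n) (hζ : IsPrimitiveRoot ζ n) (e f A B : Kˣ) :
    symCl hn hζ (e * B) (A * f⁻¹) * symCl hn hζ A B =
      symCl hn hζ e A * symCl hn hζ f B * (symCl hn hζ e f)⁻¹ := by
  rw [symCl_mul_left, symCl_mul_right, symCl_mul_right, symCl_inv_right, symCl_inv_right,
    symCl_anti hn hζ B A, symCl_anti hn hζ B f]
  generalize symCl hn hζ e A = p
  generalize symCl hn hζ f B = q
  generalize symCl hn hζ A B = r
  generalize symCl hn hζ e f = t
  rw [inv_inv, mul_assoc, mul_comm (r⁻¹ * q) r, mul_inv_cancel_left, mul_assoc, mul_comm t⁻¹ q, mul_assoc]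

/-- the index of a Brauer class divides `N` -/
def IndDvd (α : BrauerGroup.{u, u} K) (N : ℕ) : Prop :=
  ∀ (D : Type u) [DivisionRing D] [Algebra K D] [Algebra.IsCentral K D] [FiniteDimensional K D],
    brauerClass K D = α → Nat.sqrt (Module.finrank K D) ∣ N

/-- the class has a representative of degree `N` -/
def HasRep (α : BrauerGroup.{u, u} K) (N : ℕ) : Prop :=
  ∃ (A : Type u) (_ : Ring A) (_ : Algebra K A) (_ : Algebra.IsCentral K A) (_ : IsSimpleRing A)
    (_ : FiniteDimensional K A), brauerClass K A = α ∧ Module.finrank K A = N ^ 2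

theorem HasRep.mul {α β : BrauerGroup.{u, u} K} {M N : ℕ} (h : HasRep α M) (h' : HasRep β N) :
    HasRep (α * β) (M * N) := by
  obtain ⟨A, _, _, _, _, _, hA, hM⟩ := h
  obtain ⟨B, _, _, _, _, _, hB, hN⟩ := h'
  haveI : Algebra.IsCentral K (A ⊗[K] B) := isCentral_tensor
  haveI : IsSimpleRing (A ⊗[K] B) := isSimple_tensor
  refine ⟨A ⊗[K] B, inferInstance, inferInstance, inferInstance, inferInstance, inferInstance, ?_, ?_⟩
  · rw [← hA, ← hB]
    exact (brauerClass_mul_eq (BrEq.of_equiv AlgEquiv.refl)).symm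
  · rw [Module.finrank_tensorProduct, hM, hN]
    ring

theorem hasRep_symCl (hn : 0 < n) (hζ : IsPrimitiveRoot ζ n) (a b : Kˣ) : HasRep (symCl hn hζ a b) n := by
  have h := symb_csa n hn ζ (a : K) (b : K) hζ (n_ne_zero hn hζ) a.ne_zero b.ne_zero
  exact ⟨Symb K n ζ (a : K) (b : K), inferInstance, inferInstance, h.1, h.2.1, h.2.2.1, rfl, h.2.2.2⟩

end Pool.Agent.H552R3.SymBr
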